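import Mathlib

/-!
# Lower local dimension of a measure carried by a set of small Hausdorff dimension
-/

set_option autoImplicit false

open MeasureTheory Metric Filter Topology
open scoped ENNReal NNReal

namespace Pool.Agent.MP644907ins

variable {X : Type} [MetricSpace X] [MeasurableSpace X] [BorelSpace X]

/-- mass distribution principle -/
lemma restrict_le {ν : Measure X} [IsFiniteMeasure ν] {s ρ : ℝ} (hs : 0 < s) (hρ : 0 < ρ) :
    ν.restrict {ξ | ∀ r : ℝ, 0 < r → r < ρ → ν.real (ball ξ r) ≤ r ^ s} ≤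
      Measure.hausdorffMeasure s := by
  set A : Set X := {ξ | ∀ r : ℝ, 0 < r → r < ρ → ν.real (ball ξ r) ≤ r ^ s} with hA
  apply Measure.le_hausdorffMeasure s _ (ENNReal.ofReal (ρ / 2)) (by simpa using hρ)
  intro S hS
  have hfin : ediam S ≠ ⊤ := ne_top_of_le_ne_top ENNReal.ofReal_ne_top hS
  obtain ⟨δ, hδ⟩ : ∃ δ : ℝ, δ = (ediam S).toReal := ⟨_, rfl⟩
  have hδ0 : 0 ≤ δ := by rw [hδ]; exact ENNReal.toReal_nonneg
  have hδρ : δ < ρ := by
    have h1 := ENNReal.toReal_mono ENNReal.ofReal_ne_top hS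
    rw [ENNReal.toReal_ofReal (by linarith)] at h1
    linarith
  have hdS : ediam S = ENNReal.ofReal δ := by rw [hδ, ENNReal.ofReal_toReal hfin]
  have h1 : ν.restrict A S ≤ ν (closure S ∩ A) := by
    rw [← Measure.restrict_apply isClosed_closure.measurableSet]
    exact measure_mono subset_closure
  refine h1.trans ?_
  rcases (closure S ∩ A).eq_empty_or_nonempty with he | ⟨x, hxS, hxA⟩
  · rw [he, measure_empty]
    exact bot_le
  have h2 : ∀ r : ℝ, δ < r → r < ρ → ν (closure S ∩ A) ≤ ENNReal.ofReal (r ^ s) := by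
    intro r hr1 hr2
    have h3 : closure S ⊆ ball x r := by
      intro y hy
      have h4 : edist y x ≤ ediam (closure S) := edist_le_ediam_of_mem hy hxS
      rw [ediam_closure, hdS] at h4
      rw [mem_ball, dist_edist]
      have h5 := ENNReal.toReal_mono ENNReal.ofReal_ne_top h4
      rw [ENNReal.toReal_ofReal hδ0] at h5
      linarith
    calc ν (closure S ∩ A) ≤ ν (ball x r) :=
          measure_mono (Set.inter_subset_left.trans h3)
      _ = ENNReal.ofReal (ν.real (ball x r)) := by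
          rw [ofReal_measureReal]
      _ ≤ ENNReal.ofReal (r ^ s) := ENNReal.ofReal_le_ofReal (hxA r (by linarith) hr2)
  have h6 : Tendsto (fun r : ℝ => ENNReal.ofReal (r ^ s)) (𝓝[>] δ) (𝓝 (ENNReal.ofReal (δ ^ s))) := by
    refine (ENNReal.continuous_ofReal.tendsto _).comp ?_
    exact ((Real.continuous_rpow_const hs.le).tendsto δ).mono_left nhdsWithin_le_nhds
  have h7 : ν (closure S ∩ A) ≤ ENNReal.ofReal (δ ^ s) := by
    refine ge_of_tendsto h6 ?_
    filter_upwards [Ioo_mem_nhdsGT hδρ] with r hr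
    exact h2 r hr.1 hr.2
  rw [hdS, ENNReal.ofReal_rpow_of_nonneg hδ0 hs.le]
  exact h7

/-- the lower local dimension is at most the dimension of a set of full measure -/
theorem lower_dim {ν : Measure X} [IsFiniteMeasure ν] {E : Set X} (hE : MeasurableSet E)
    (hν : ν Eᶜ = 0) {s : ℝ} (hs : dimH E < ENNReal.ofReal s) :
    ∀ᵐ ξ ∂ν, ∃ᶠ r in 𝓝[>] (0 : ℝ), r ^ s < ν.real (ball ξ r) := by
  have hs0 : 0 < s := by
    by_contra h
    rw [ENNReal.ofReal_of_nonpos (not_lt.1 h)] at hs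
    exact not_lt_bot hs
  have hH : Measure.hausdorffMeasure s E = 0 := by
    have h1 := hausdorffMeasure_of_dimH_lt (s := E) (d := s.toNNReal) hs
    rwa [Real.coe_toNNReal _ hs0.le] at h1
  set A : ℕ → Set X := fun n =>
    {ξ | ∀ r : ℝ, 0 < r → r < 1 / ((n : ℝ) + 1) → ν.real (ball ξ r) ≤ r ^ s} with hA
  have hAn : ∀ n, ν (A n) = 0 := by
    intro n
    have h1 := restrict_le (ν := ν) hs0 (ρ := 1 / ((n : ℝ) + 1)) (by positivity)
    have h2 : ν (E ∩ A n) = 0 := by
      rw [← Measure.restrict_apply hE]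
      exact le_antisymm ((h1 E).trans hH.le) bot_le
    have h3 : A n ⊆ (E ∩ A n) ∪ Eᶜ := by
      intro x hx
      by_cases h : x ∈ E
      · exact Or.inl ⟨h, hx⟩
      · exact Or.inr h
    refine le_antisymm ((measure_mono h3).trans ((measure_union_le _ _).trans ?_)) bot_le
    rw [h2, hν, add_zero]
  have hU : ν (⋃ n, A n) = 0 := by
    rw [measure_iUnion_null_iff]
    exact hAn
  rw [ae_iff]
  refine measure_mono_null ?_ hU
  intro ξ hξ
  rw [Set.mem_ofPred_eq, not_frequently] at hξ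
  obtain ⟨ρ, hρ, hsub⟩ := mem_nhdsGT_iff_exists_Ioo_subset.1 hξ
  have hρ' : (0 : ℝ) < ρ := hρ
  obtain ⟨n, hn⟩ := exists_nat_one_div_lt hρ'
  rw [Set.mem_iUnion]
  refine ⟨n, fun r hr1 hr2 => ?_⟩
  exact not_lt.1 (hsub ⟨hr1, hr2.trans hn⟩)

/-- the local dimension, if it exists and is constant, is at most the dimension of a set of full
measure -/
theorem exact_dim {ν : Measure X} [IsProbabilityMeasure ν] {E : Set X} (hE : MeasurableSet E)
    (hν : ν Eᶜ = 0) {D : ℝ}
    (hD : ∀ᵐ ξ ∂ν, Tendsto (fun r : ℝ => Real.log (ν.real (ball ξ r)) / Real.log r)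
      (𝓝[>] 0) (𝓝 D)) : ENNReal.ofReal D ≤ dimH E := by
  by_contra hlt
  rw [not_le] at hlt
  obtain ⟨s, hs1, hs2⟩ := ENNReal.lt_iff_exists_nnreal_btwn.1 hlt
  have hsD : (s : ℝ) < D := by
    have h1 : ENNReal.ofReal (s : ℝ) < ENNReal.ofReal D := by rwa [ENNReal.ofReal_coe_nnreal]
    exact (ENNReal.ofReal_lt_ofReal_iff_of_nonneg s.2).1 h1
  have h1 := lower_dim hE hν (s := (s : ℝ)) (by rwa [ENNReal.ofReal_coe_nnreal])
  obtain ⟨ξ, hξ1, hξ2⟩ := (h1.and hD).exists
  have h2 : ∀ᶠ r in 𝓝[>] (0 : ℝ), (s : ℝ) < Real.log (ν.real (ball ξ r)) / Real.log r :=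
    hξ2.eventually (lt_mem_nhds hsD)
  have h3 : ∀ᶠ r in 𝓝[>] (0 : ℝ), r ∈ Set.Ioo (0 : ℝ) 1 := Ioo_mem_nhdsGT one_pos
  obtain ⟨r, hr1, hr2, hr3, hr4⟩ := (hξ1.and_eventually (h2.and h3)).exists
  have hlog : Real.log r < 0 := Real.log_neg hr3 hr4
  rw [lt_div_iff_of_neg hlog] at hr2
  have h5 : Real.log (r ^ (s : ℝ)) < Real.log (ν.real (ball ξ r)) :=
    Real.log_lt_log (Real.rpow_pos_of_pos hr3 _) hr1
  rw [Real.log_rpow hr3] at h5
  linarith

end Pool.Agent.MP644907ins
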