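import Mathlib

/-!
# Isometries of the hyperbolic plane, extended to the closed unit disc
-/

set_option autoImplicit false

open MeasureTheory Metric Filter Topology

namespace Pool.Agent.MP644907ins

/-- The closed unit disc: the hyperbolic plane `‖z‖ < 1` (disc model) together with its visual
boundary, the circle `‖z‖ = 1`. The visual metric based at `0` is half of the Euclidean one. -/
abbrev Disc : Type := closedBall (0 : ℂ) 1

/-- The centre of the disc. -/
def centre : Disc := ⟨0, by simp⟩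

/-- The pseudo-hyperbolic distance `|z - w| / |1 - conj w * z|`, which is `tanh (d (z, w) / 2)` for
the hyperbolic distance `d`. -/
noncomputable def rho (z w : ℂ) : ℝ := ‖z - w‖ / ‖1 - starRingEnd ℂ w * z‖

/-- `γ` is the extension to the closed disc of an isometry of the hyperbolic plane: it maps the
open disc to itself and preserves the hyperbolic distance of any two points of it. -/
def IsHypIsometry (γ : Disc ≃ₜ Disc) : Prop :=
  ∀ z w : Disc, ‖(z : ℂ)‖ < 1 → ‖(w : ℂ)‖ < 1 →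
    ‖(γ z : ℂ)‖ < 1 ∧ rho (γ z) (γ w) = rho z w

/-- the Moebius map `z ↦ (z - b) / (1 - conj b * z)` -/
noncomputable def mob (b z : ℂ) : ℂ := (z - b) / (1 - starRingEnd ℂ b * z)

lemma den_ne {b z : ℂ} (hb : ‖b‖ < 1) (hz : ‖z‖ ≤ 1) : 1 - starRingEnd ℂ b * z ≠ 0 := by
  intro h
  have h1 : starRingEnd ℂ b * z = 1 := (sub_eq_zero.1 h).symm
  have h2 : ‖starRingEnd ℂ b * z‖ = 1 := by rw [h1, norm_one]
  rw [norm_mul, RCLike.norm_conj] at h2
  nlinarith [norm_nonneg b, norm_nonneg z]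

lemma den_ne' {b z : ℂ} (hb : ‖b‖ ≤ 1) (hz : ‖z‖ < 1) : 1 - starRingEnd ℂ b * z ≠ 0 := by
  intro h
  have h1 : starRingEnd ℂ b * z = 1 := (sub_eq_zero.1 h).symm
  have h2 : ‖starRingEnd ℂ b * z‖ = 1 := by rw [h1, norm_one]
  rw [norm_mul, RCLike.norm_conj] at h2
  nlinarith [norm_nonneg b, norm_nonneg z]

lemma conj_mul_self_norm (z : ℂ) : starRingEnd ℂ z * z = ((‖z‖ ^ 2 : ℝ) : ℂ) := by
  rw [← Complex.normSq_eq_conj_mul_self, Complex.normSq_eq_norm_sq]

/-- `|1 - conj w z|^2 - |z - w|^2 = (1 - |z|^2)(1 - |w|^2)` -/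
lemma key_id (z w : ℂ) : ‖1 - starRingEnd ℂ w * z‖ ^ 2 - ‖z - w‖ ^ 2 =
    (1 - ‖z‖ ^ 2) * (1 - ‖w‖ ^ 2) := by
  rw [← Complex.normSq_eq_norm_sq, ← Complex.normSq_eq_norm_sq, ← Complex.normSq_eq_norm_sq,
    ← Complex.normSq_eq_norm_sq]
  simp only [Complex.normSq_apply, Complex.sub_re, Complex.sub_im, Complex.mul_re, Complex.mul_im,
    Complex.conj_re, Complex.conj_im, Complex.one_re, Complex.one_im]
  ring

/-- `|1 - conj w z|^2 = 1 - 2 Re (conj w z) + |z|^2 |w|^2` -/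
lemma den_sq (z w : ℂ) : ‖1 - starRingEnd ℂ w * z‖ ^ 2 =
    1 - 2 * (starRingEnd ℂ w * z).re + ‖z‖ ^ 2 * ‖w‖ ^ 2 := by
  rw [← Complex.normSq_eq_norm_sq, ← Complex.normSq_eq_norm_sq, ← Complex.normSq_eq_norm_sq]
  simp only [Complex.normSq_apply, Complex.sub_re, Complex.sub_im, Complex.mul_re, Complex.mul_im,
    Complex.conj_re, Complex.conj_im, Complex.one_re, Complex.one_im]
  ring

/-- equal moduli and equal pseudo-hyperbolic distance give equal inner products -/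
lemma inner_of_rho {z w z' w' : ℂ} (hz : ‖z‖ < 1) (hw : ‖w‖ < 1) (hz' : ‖z'‖ = ‖z‖)
    (hw' : ‖w'‖ = ‖w‖) (h : rho z' w' = rho z w) :
    (starRingEnd ℂ w' * z').re = (starRingEnd ℂ w * z).re := by
  have hd := den_ne' (b := w) hw.le hz
  have hd' := den_ne' (b := w') (hw' ▸ hw.le) (hz' ▸ hz)
  have hp : 0 < ‖1 - starRingEnd ℂ w * z‖ ^ 2 := by positivity
  have hp' : 0 < ‖1 - starRingEnd ℂ w' * z'‖ ^ 2 := by positivity
  have k := key_id z w
  have k' := key_id z' w'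
  rw [hz', hw'] at k'
  have hpos : 0 < (1 - ‖z‖ ^ 2) * (1 - ‖w‖ ^ 2) := by
    apply mul_pos <;> nlinarith [norm_nonneg z, norm_nonneg w]
  have h2 : ‖z' - w'‖ ^ 2 * ‖1 - starRingEnd ℂ w * z‖ ^ 2 =
      ‖z - w‖ ^ 2 * ‖1 - starRingEnd ℂ w' * z'‖ ^ 2 := by
    have h3 := congrArg (fun x => x ^ 2) h
    simp only [rho, div_pow] at h3
    rwa [div_eq_div_iff hp'.ne' hp.ne'] at h3
  have h4 : ‖1 - starRingEnd ℂ w' * z'‖ ^ 2 = ‖1 - starRingEnd ℂ w * z‖ ^ 2 := by
    have h5 : ‖z' - w'‖ ^ 2 = ‖1 - starRingEnd ℂ w' * z'‖ ^ 2 - (1 - ‖z‖ ^ 2) * (1 - ‖w‖ ^ 2) := by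
      linarith
    have h6 : ‖z - w‖ ^ 2 = ‖1 - starRingEnd ℂ w * z‖ ^ 2 - (1 - ‖z‖ ^ 2) * (1 - ‖w‖ ^ 2) := by
      linarith
    rw [h5, h6] at h2
    have h7 : (1 - ‖z‖ ^ 2) * (1 - ‖w‖ ^ 2) *
        (‖1 - starRingEnd ℂ w' * z'‖ ^ 2 - ‖1 - starRingEnd ℂ w * z‖ ^ 2) = 0 := by
      linear_combination h2
    rcases mul_eq_zero.1 h7 with h8 | h8
    · exact absurd h8 hpos.ne'
    · linarith
  rw [den_sq, den_sq, hz', hw'] at h4
  linarith

/-- the pseudo-hyperbolic distance is invariant under `mob b` -/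
lemma rho_mob {b z w : ℂ} (hb : ‖b‖ < 1) (hz : ‖z‖ < 1) (hw : ‖w‖ < 1) :
    rho (mob b z) (mob b w) = rho z w := by
  have h1 := den_ne hb hz.le
  have h2 := den_ne hb hw.le
  have h2' : 1 - b * starRingEnd ℂ w ≠ 0 := by
    intro h
    apply h2
    have := congrArg (starRingEnd ℂ) h
    simpa using this
  have hB : (1 : ℂ) - starRingEnd ℂ b * b ≠ 0 := den_ne hb hb.le
  have h3 := den_ne' (b := w) hw.le hz
  have e1 : mob b z - mob b w = (1 - starRingEnd ℂ b * b) * (z - w) /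
      ((1 - starRingEnd ℂ b * z) * (1 - starRingEnd ℂ b * w)) := by
    unfold mob
    rw [div_sub_div _ _ h1 h2]
    congr 1
    ring
  have e2 : 1 - starRingEnd ℂ (mob b w) * mob b z = (1 - starRingEnd ℂ b * b) *
      (1 - starRingEnd ℂ w * z) / ((1 - starRingEnd ℂ b * z) * (1 - b * starRingEnd ℂ w)) := by
    unfold mob
    rw [map_div₀, map_sub, map_sub, map_mul, map_one, Complex.conj_conj, div_mul_div_comm,
      one_sub_div (mul_ne_zero h2' h1), mul_comm (1 - b * starRingEnd ℂ w)]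
    congr 1
    ring
  have e3 : ‖1 - b * starRingEnd ℂ w‖ = ‖1 - starRingEnd ℂ b * w‖ := by
    rw [← RCLike.norm_conj (1 - b * starRingEnd ℂ w)]
    simp
  unfold rho
  rw [e1, e2, norm_div, norm_div, norm_mul, norm_mul, norm_mul, norm_mul, e3]
  have n1 : ‖1 - starRingEnd ℂ b * z‖ ≠ 0 := norm_ne_zero_iff.2 h1
  have n2 : ‖1 - starRingEnd ℂ b * w‖ ≠ 0 := norm_ne_zero_iff.2 h2
  have n3 : ‖1 - starRingEnd ℂ b * b‖ ≠ 0 := norm_ne_zero_iff.2 hB
  have n4 : ‖1 - starRingEnd ℂ w * z‖ ≠ 0 := norm_ne_zero_iff.2 h3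
  field_simp

lemma norm_mob (b z : ℂ) : ‖mob b z‖ = rho z b := by
  unfold mob rho
  rw [norm_div]

/-- inverting `mob b` -/
lemma mob_inv {b z : ℂ} (hb : ‖b‖ < 1) (hz : ‖z‖ < 1) :
    z = (mob b z + b) / (1 + starRingEnd ℂ b * mob b z) := by
  have h1 := den_ne hb hz.le
  have hB : (1 : ℂ) - starRingEnd ℂ b * b ≠ 0 := den_ne hb hb.le
  have e1 : mob b z + b = z * (1 - starRingEnd ℂ b * b) / (1 - starRingEnd ℂ b * z) := by
    unfold mob
    rw [div_add' _ _ _ h1]
    congr 1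
    ring
  have e2 : 1 + starRingEnd ℂ b * mob b z = (1 - starRingEnd ℂ b * b) / (1 - starRingEnd ℂ b * z) := by
    unfold mob
    rw [mul_div_assoc', add_div' _ _ _ h1]
    congr 1
    ring
  rw [e1, e2, div_div_div_cancel_right₀ h1, mul_div_cancel_right₀ _ hB]

lemma conj_two : starRingEnd ℂ (2 : ℂ) = 2 := by
  have := Complex.conj_ofReal 2
  push_cast at this
  exact this

/-- a map of the open disc fixing inner products is linear or antilinear -/
lemma linear_of_inner (F : ℂ → ℂ)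
    (h : ∀ z w : ℂ, ‖z‖ < 1 → ‖w‖ < 1 → (starRingEnd ℂ (F w) * F z).re = (starRingEnd ℂ w * z).re) :
    ∃ e : ℂ, ‖e‖ = 1 ∧ ((∀ z, ‖z‖ < 1 → F z = e * z) ∨
      (∀ z, ‖z‖ < 1 → F z = e * starRingEnd ℂ z)) := by
  have hn : ∀ z : ℂ, ‖z‖ < 1 → ‖F z‖ = ‖z‖ := by
    intro z hz
    have h1 := h z z hz hz
    rw [conj_mul_self_norm, conj_mul_self_norm, Complex.ofReal_re, Complex.ofReal_re] at h1
    exact (sq_eq_sq₀ (norm_nonneg _) (norm_nonneg _)).1 h1
  have hh : ‖(1 / 2 : ℂ)‖ < 1 := by norm_num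
  have hi : ‖(Complex.I / 2 : ℂ)‖ < 1 := by
    rw [norm_div, Complex.norm_I]
    norm_num
  set e : ℂ := 2 * F (1 / 2) with he
  set f : ℂ := 2 * F (Complex.I / 2) with hf
  have he1 : ‖e‖ = 1 := by
    rw [he, norm_mul, hn _ hh]
    norm_num
  have hf1 : ‖f‖ = 1 := by
    rw [hf, norm_mul, hn _ hi, norm_div, Complex.norm_I]
    norm_num
  have hee : starRingEnd ℂ e * e = 1 := by
    rw [conj_mul_self_norm, he1]
    norm_num
  have hre : ∀ z : ℂ, ‖z‖ < 1 → (starRingEnd ℂ e * F z).re = z.re := by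
    intro z hz
    have h1 := h z (1 / 2) hz hh
    have h2 : starRingEnd ℂ e * F z = 2 * (starRingEnd ℂ (F (1 / 2)) * F z) := by
      rw [he, map_mul, conj_two]
      ring
    have h3 : starRingEnd ℂ (1 / 2 : ℂ) * z = (1 / 2 : ℝ) * z := by
      rw [map_div₀, map_one, conj_two]
      push_cast
      ring
    rw [h3, Complex.re_ofReal_mul] at h1
    have h4 : (2 : ℂ) * (starRingEnd ℂ (F (1 / 2)) * F z) =
        ((2 : ℝ) : ℂ) * (starRingEnd ℂ (F (1 / 2)) * F z) := by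
      norm_num
    rw [h2, h4, Complex.re_ofReal_mul, h1]
    ring
  have him : ∀ z : ℂ, ‖z‖ < 1 → (starRingEnd ℂ f * F z).re = z.im := by
    intro z hz
    have h1 := h z (Complex.I / 2) hz hi
    have h2 : starRingEnd ℂ f * F z = ((2 : ℝ) : ℂ) * (starRingEnd ℂ (F (Complex.I / 2)) * F z) := by
      rw [hf, map_mul, conj_two]
      push_cast
      ring
    have h3 : (starRingEnd ℂ (Complex.I / 2 : ℂ) * z).re = z.im / 2 := by
      have : (starRingEnd ℂ (Complex.I / 2 : ℂ)) = ((-(1 / 2) : ℝ) : ℂ) * Complex.I := by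
        rw [map_div₀, Complex.conj_I, conj_two]
        push_cast
        ring
      rw [this, mul_assoc, Complex.re_ofReal_mul, Complex.mul_re]
      simp
      ring
    rw [h3] at h1
    rw [h2, Complex.re_ofReal_mul, h1]
    ring
  -- the relation of e and f
  set g : ℂ := starRingEnd ℂ e * f with hg
  have hgre : g.re = 0 := by
    have h1 := hre _ hi
    have h2 : g = ((2 : ℝ) : ℂ) * (starRingEnd ℂ e * F (Complex.I / 2)) := by
      rw [hg, hf]
      push_cast
      ring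
    rw [h2, Complex.re_ofReal_mul, h1]
    simp
  have hgn : ‖g‖ = 1 := by
    rw [hg, norm_mul, RCLike.norm_conj, he1, hf1, one_mul]
  have hgim : g.im = 1 ∨ g.im = -1 := by
    have h1 : ‖g‖ ^ 2 = g.re * g.re + g.im * g.im := by
      rw [← Complex.normSq_eq_norm_sq, Complex.normSq_apply]
    rw [hgn, hgre] at h1
    have h2 : (g.im - 1) * (g.im + 1) = 0 := by linarith
    rcases mul_eq_zero.1 h2 with h3 | h3
    · left; linarith
    · right; linarith
  have hfe : f = e * g := by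
    rw [hg, ← mul_assoc, mul_comm e, hee, one_mul]
  -- the value
  have hval : ∀ z : ℂ, ‖z‖ < 1 → (starRingEnd ℂ e * F z).im = g.im * z.im := by
    intro z hz
    have h1 := him z hz
    have h2 : starRingEnd ℂ f * F z = starRingEnd ℂ g * (starRingEnd ℂ e * F z) := by
      rw [hfe, map_mul]
      ring
    rw [h2, Complex.mul_re, Complex.conj_re, Complex.conj_im, hgre] at h1
    have h3 : g.im * (starRingEnd ℂ e * F z).im = z.im := by linarith
    have h4 : g.im * g.im = 1 := by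
      rcases hgim with h | h <;> rw [h] <;> norm_num
    calc (starRingEnd ℂ e * F z).im = (g.im * g.im) * (starRingEnd ℂ e * F z).im := by
          rw [h4, one_mul]
      _ = g.im * (g.im * (starRingEnd ℂ e * F z).im) := by ring
      _ = _ := by rw [h3]
  have hF : ∀ z : ℂ, F z = e * (starRingEnd ℂ e * F z) := by
    intro z
    rw [← mul_assoc, mul_comm e, hee, one_mul]
  refine ⟨e, he1, ?_⟩
  rcases hgim with h1 | h1
  · left
    intro z hz
    rw [hF z]
    congr 1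
    apply Complex.ext
    · exact hre z hz
    · rw [hval z hz, h1, one_mul]
  · right
    intro z hz
    rw [hF z]
    congr 1
    apply Complex.ext
    · rw [hre z hz, Complex.conj_re]
    · rw [hval z hz, h1, Complex.conj_im]
      ring

end Pool.Agent.MP644907ins
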