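import Mathlib
import Pool.Agent.Lib_MP_644907_ins.Hyp

/-!
# Explicit form of the isometries of the hyperbolic plane
-/

set_option autoImplicit false

open MeasureTheory Metric Filter Topology

namespace Pool.Agent.MP644907ins

/-- the orientation preserving isometries -/
noncomputable def formA (u a z : ℂ) : ℂ := u * (z - a) / (1 - starRingEnd ℂ a * z)

/-- the orientation reversing isometries -/
noncomputable def formB (u a z : ℂ) : ℂ :=
  u * (starRingEnd ℂ z - a) / (1 - starRingEnd ℂ a * starRingEnd ℂ z)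

lemma formB_eq (u a z : ℂ) : formB u a z = formA u a (starRingEnd ℂ z) := rfl

lemma disc_le (z : Disc) : ‖(z : ℂ)‖ ≤ 1 := by
  have := z.2
  rwa [mem_closedBall, dist_zero_right] at this

lemma dense_int : Dense {z : Disc | ‖(z : ℂ)‖ < 1} := by
  intro z
  rw [Metric.mem_closure_iff]
  intro ε hε
  set t : ℝ := 1 - min (ε / 2) (1 / 2) with ht
  have ht1 : t < 1 := by
    have : 0 < min (ε / 2) (1 / 2) := lt_min (by linarith) (by norm_num)
    linarith
  have ht0 : 0 ≤ t := by
    have := min_le_right (ε / 2) (1 / 2 : ℝ)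
    linarith
  have hn : ‖((t : ℂ) * (z : ℂ))‖ < 1 := by
    rw [norm_mul, Complex.norm_real, Real.norm_of_nonneg ht0]
    have := disc_le z
    nlinarith [norm_nonneg (z : ℂ)]
  refine ⟨⟨(t : ℂ) * (z : ℂ), by rw [mem_closedBall, dist_zero_right]; exact hn.le⟩, hn, ?_⟩
  rw [Subtype.dist_eq, dist_eq_norm]
  have e : (z : ℂ) - (t : ℂ) * (z : ℂ) = ((1 - t : ℝ) : ℂ) * (z : ℂ) := by
    push_cast
    ring
  have e' : ((⟨(t : ℂ) * (z : ℂ), by rw [mem_closedBall, dist_zero_right]; exact hn.le⟩ : Disc) : ℂ) =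
      (t : ℂ) * (z : ℂ) := rfl
  rw [e', e, norm_mul, Complex.norm_real, Real.norm_of_nonneg (by linarith)]
  have h1 := disc_le z
  have h2 := min_le_left (ε / 2) (1 / 2 : ℝ)
  nlinarith [norm_nonneg (z : ℂ)]

lemma formA_continuous {u a : ℂ} (ha : ‖a‖ < 1) : Continuous fun z : Disc => formA u a (z : ℂ) := by
  unfold formA
  refine Continuous.div (by fun_prop) (by fun_prop) fun z => den_ne ha (disc_le z)

lemma formB_continuous {u a : ℂ} (ha : ‖a‖ < 1) : Continuous fun z : Disc => formB u a (z : ℂ) := by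
  unfold formB
  refine Continuous.div (by fun_prop) (by fun_prop) fun z => den_ne ha ?_
  rw [RCLike.norm_conj]
  exact disc_le z

theorem exists_form {γ : Disc ≃ₜ Disc} (h : IsHypIsometry γ) : ∃ u a : ℂ, ‖u‖ = 1 ∧ ‖a‖ < 1 ∧
    ((∀ z : Disc, (γ z : ℂ) = formA u a z) ∨ (∀ z : Disc, (γ z : ℂ) = formB u a z)) := by
  have hc : ‖(centre : ℂ)‖ < 1 := by simp [centre]
  set b : ℂ := (γ centre : ℂ) with hb
  have hb1 : ‖b‖ < 1 := (h centre centre hc hc).1
  have mk : ∀ z : ℂ, ‖z‖ < 1 → z ∈ closedBall (0 : ℂ) 1 := by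
    intro z hz
    rw [mem_closedBall, dist_zero_right]
    exact hz.le
  classical
  set F : ℂ → ℂ := fun z => if hz : ‖z‖ < 1 then mob b (γ ⟨z, mk z hz⟩) else 0 with hF
  have hFz : ∀ (z : ℂ) (hz : ‖z‖ < 1), F z = mob b (γ ⟨z, mk z hz⟩) := by
    intro z hz
    rw [hF]
    simp only [hz, dif_pos]
  have hn : ∀ z : ℂ, ‖z‖ < 1 → ‖F z‖ = ‖z‖ := by
    intro z hz
    rw [hFz z hz, norm_mob, hb, (h ⟨z, mk z hz⟩ centre hz hc).2]
    simp [rho, centre]
  have hr : ∀ z w : ℂ, ‖z‖ < 1 → ‖w‖ < 1 → rho (F z) (F w) = rho z w := by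
    intro z w hz hw
    rw [hFz z hz, hFz w hw, rho_mob hb1 (h ⟨z, mk z hz⟩ centre hz hc).1
      (h ⟨w, mk w hw⟩ centre hw hc).1, (h ⟨z, mk z hz⟩ ⟨w, mk w hw⟩ hz hw).2]
  obtain ⟨e, he, hlin⟩ := linear_of_inner F fun z w hz hw =>
    inner_of_rho hz hw (hn z hz) (hn w hw) (hr z w hz hw)
  have hee : starRingEnd ℂ e * e = 1 := by
    rw [conj_mul_self_norm, he]
    norm_num
  have he0 : e ≠ 0 := by
    rw [← norm_ne_zero_iff, he]
    norm_num
  set a : ℂ := -(starRingEnd ℂ e * b) with ha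
  have ha1 : ‖a‖ < 1 := by
    rw [ha, norm_neg, norm_mul, RCLike.norm_conj, he, one_mul]
    exact hb1
  have hconj : starRingEnd ℂ a = -(e * starRingEnd ℂ b) := by
    rw [ha, map_neg, map_mul, Complex.conj_conj]
  have hea : e * a = -b := by
    rw [ha]
    linear_combination (-b) * hee
  refine ⟨e, a, he, ha1, ?_⟩
  rcases hlin with hl | hl
  · left
    have h1 : Set.EqOn (fun z : Disc => (γ z : ℂ)) (fun z : Disc => formA e a (z : ℂ))
        {z : Disc | ‖(z : ℂ)‖ < 1} := by
      intro z hz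
      have hz' : ‖(z : ℂ)‖ < 1 := hz
      have h2 := mob_inv hb1 (h z centre hz' hc).1
      have h3 : mob b (γ z) = e * z := by
        rw [← hl z hz', hFz _ hz']
      rw [h3] at h2
      show (γ z : ℂ) = formA e a z
      rw [h2]
      unfold formA
      rw [hconj]
      congr 1
      · linear_combination hea
      · ring
    have h4 := Continuous.ext_on dense_int (continuous_subtype_val.comp γ.continuous)
      (formA_continuous ha1) h1
    exact fun z => congrFun h4 z
  · right
    have h1 : Set.EqOn (fun z : Disc => (γ z : ℂ)) (fun z : Disc => formB e a (z : ℂ))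
        {z : Disc | ‖(z : ℂ)‖ < 1} := by
      intro z hz
      have hz' : ‖(z : ℂ)‖ < 1 := hz
      have h2 := mob_inv hb1 (h z centre hz' hc).1
      have h3 : mob b (γ z) = e * starRingEnd ℂ z := by
        rw [← hl z hz', hFz _ hz']
      rw [h3] at h2
      show (γ z : ℂ) = formB e a z
      rw [h2]
      unfold formB
      rw [hconj]
      congr 1
      · linear_combination hea
      · ring
    have h4 := Continuous.ext_on dense_int (continuous_subtype_val.comp γ.continuous)
      (formB_continuous ha1) h1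
    exact fun z => congrFun h4 z

/-! ### fixed points on the circle -/

lemma norm_one_conj {z : ℂ} (hz : ‖z‖ = 1) : starRingEnd ℂ z * z = 1 := by
  rw [conj_mul_self_norm, hz]
  norm_num

/-- a quadratic polynomial with three zeros vanishes -/
lemma quad_zero {A B C x y z : ℂ} (hxy : x ≠ y) (hxz : x ≠ z) (hyz : y ≠ z)
    (hx : A * x ^ 2 + B * x + C = 0) (hy : A * y ^ 2 + B * y + C = 0)
    (hz : A * z ^ 2 + B * z + C = 0) : A = 0 ∧ B = 0 ∧ C = 0 := by
  have h1 : (x - y) * (A * (x + y) + B) = 0 := by linear_combination hx - hy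
  have h2 : (x - z) * (A * (x + z) + B) = 0 := by linear_combination hx - hz
  have h1' := (mul_eq_zero.1 h1).resolve_left (sub_ne_zero.2 hxy)
  have h2' := (mul_eq_zero.1 h2).resolve_left (sub_ne_zero.2 hxz)
  have h3 : A * (y - z) = 0 := by linear_combination h1' - h2'
  have hA := (mul_eq_zero.1 h3).resolve_right (sub_ne_zero.2 hyz)
  subst hA
  have hB : B = 0 := by simpa using h1'
  subst hB
  refine ⟨rfl, rfl, by simpa using hx⟩

/-- an isometry which fixes three points of the circle is the identity -/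
theorem eq_one_of_fix {γ : Disc ≃ₜ Disc} (h : IsHypIsometry γ) {x y z : Disc}
    (hxy : x ≠ y) (hxz : x ≠ z) (hyz : y ≠ z) (nx : ‖(x : ℂ)‖ = 1) (ny : ‖(y : ℂ)‖ = 1)
    (nz : ‖(z : ℂ)‖ = 1) (fx : γ x = x) (fy : γ y = y) (fz : γ z = z) : γ = 1 := by
  obtain ⟨u, a, hu, ha, hf⟩ := exists_form h
  have vxy : (x : ℂ) ≠ y := fun e => hxy (Subtype.ext e)
  have vxz : (x : ℂ) ≠ z := fun e => hxz (Subtype.ext e)
  have vyz : (y : ℂ) ≠ z := fun e => hyz (Subtype.ext e)
  have hu0 : u ≠ 0 := by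
    rw [← norm_ne_zero_iff, hu]
    norm_num
  rcases hf with hf | hf
  · have key : ∀ w : Disc, γ w = w →
        -(starRingEnd ℂ a) * (w : ℂ) ^ 2 + (1 - u) * w + u * a = 0 := by
      intro w hw
      have h1 := hf w
      rw [hw] at h1
      unfold formA at h1
      rw [eq_div_iff (den_ne ha (disc_le w))] at h1
      linear_combination h1
    obtain ⟨hA, hB, hC⟩ := quad_zero vxy vxz vyz (key x fx) (key y fy) (key z fz)
    have hu1 : u = 1 := (sub_eq_zero.1 hB).symm
    have ha0 : a = 0 := (mul_eq_zero.1 hC).resolve_left hu0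
    apply Homeomorph.ext
    intro w
    apply Subtype.ext
    rw [hf w, hu1, ha0]
    simp [formA]
  · exfalso
    have key : ∀ w : Disc, ‖(w : ℂ)‖ = 1 → γ w = w →
        1 * (w : ℂ) ^ 2 + (u * a - starRingEnd ℂ a) * w + (-u) = 0 := by
      intro w nw hw
      have h1 := hf w
      have h2 := norm_one_conj nw
      have h0 : ‖starRingEnd ℂ (w : ℂ)‖ ≤ 1 := by rw [RCLike.norm_conj, nw]
      rw [hw] at h1
      unfold formB at h1
      rw [eq_div_iff (den_ne ha h0)] at h1
      linear_combination (w : ℂ) * h1 + (starRingEnd ℂ a * (w : ℂ) + u) * h2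
    obtain ⟨hA, -, -⟩ := quad_zero vxy vxz vyz (key x nx fx) (key y ny fy) (key z nz fz)
    exact one_ne_zero hA

end Pool.Agent.MP644907ins
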