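import Mathlib
import Pool.Agent.Lib_MP_644907_ins.Form

/-!
# Discrete groups of isometries: finiteness, limit set
-/

set_option autoImplicit false

open MeasureTheory Metric Filter Topology

namespace Pool.Agent.MP644907ins

/-- The limit set of `Γ`: the accumulation points on the boundary circle of the orbit of the
centre. -/
def limitSet (Γ : Subgroup (Disc ≃ₜ Disc)) : Set Disc :=
  {ξ | ‖(ξ : ℂ)‖ = 1 ∧ ξ ∈ closure {z | ∃ γ ∈ Γ, z = γ centre}}

/-- `Γ` is discrete: the identity is isolated in `Γ` for uniform convergence on the closed disc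
(which on isometries is the usual topology). -/
def IsDiscrete (Γ : Subgroup (Disc ≃ₜ Disc)) : Prop :=
  ∃ ε : ℝ, 0 < ε ∧ ∀ γ ∈ Γ, (∀ z : Disc, dist (γ z) z < ε) → γ = 1

instance : CompactSpace Disc := isCompact_iff_compactSpace.1 (isCompact_closedBall (0 : ℂ) 1)

instance : Nonempty Disc := ⟨centre⟩

lemma norm_centre : ‖(centre : ℂ)‖ < 1 := by simp [centre]

variable {Γ : Subgroup (Disc ≃ₜ Disc)}

lemma norm_lt_iff (hΓ : ∀ γ ∈ Γ, IsHypIsometry γ) {γ : Disc ≃ₜ Disc} (hγ : γ ∈ Γ) (z : Disc) :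
    ‖(γ z : ℂ)‖ < 1 ↔ ‖(z : ℂ)‖ < 1 := by
  constructor
  · intro h
    have h1 := (hΓ γ⁻¹ (Γ.inv_mem hγ) (γ z) centre h norm_centre).1
    have h2 : γ⁻¹ (γ z) = z := γ.symm_apply_apply z
    rwa [h2] at h1
  · intro h
    exact (hΓ γ hγ z centre h norm_centre).1

lemma norm_eq_iff (hΓ : ∀ γ ∈ Γ, IsHypIsometry γ) {γ : Disc ≃ₜ Disc} (hγ : γ ∈ Γ) (z : Disc) :
    ‖(γ z : ℂ)‖ = 1 ↔ ‖(z : ℂ)‖ = 1 := by
  have h1 := norm_lt_iff hΓ hγ z
  have h2 := disc_le z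
  have h3 := disc_le (γ z)
  constructor
  · intro h
    by_contra hne
    exact absurd (h1.2 (lt_of_le_of_ne h2 hne)) (by rw [h]; exact lt_irrefl _)
  · intro h
    by_contra hne
    exact absurd (h1.1 (lt_of_le_of_ne h3 hne)) (by rw [h]; exact lt_irrefl _)

lemma limit_maps (hΓ : ∀ γ ∈ Γ, IsHypIsometry γ) {γ : Disc ≃ₜ Disc} (hγ : γ ∈ Γ) {ξ : Disc}
    (hξ : ξ ∈ limitSet Γ) : γ ξ ∈ limitSet Γ := by
  refine ⟨(norm_eq_iff hΓ hγ ξ).2 hξ.1, ?_⟩
  refine map_mem_closure γ.continuous hξ.2 ?_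
  rintro z ⟨g, hg, rfl⟩
  exact ⟨γ * g, Γ.mul_mem hγ hg, rfl⟩

/-- a group of isometries with at least three limit points has infinitely many of them -/
theorem infinite_limit (hΓ : ∀ γ ∈ Γ, IsHypIsometry γ) (h : 2 < (limitSet Γ).encard) :
    (limitSet Γ).Infinite := by
  by_contra hfin
  rw [Set.not_infinite] at hfin
  have h2 : 2 < (limitSet Γ).ncard := by
    rw [← hfin.cast_ncard_eq] at h
    exact_mod_cast h
  obtain ⟨x, hx, y, hy, z, hz, hxy, hxz, hyz⟩ := (Set.two_lt_ncard hfin).1 h2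
  haveI : Finite (limitSet Γ) := hfin
  let Φ : Γ → (limitSet Γ → limitSet Γ) := fun γ ξ => ⟨γ.1 ξ.1, limit_maps hΓ γ.2 ξ.2⟩
  have hinj : Function.Injective Φ := by
    intro γ γ' hγ
    have hfix : ∀ w : Disc, w ∈ limitSet Γ → (γ'.1⁻¹ * γ.1) w = w := by
      intro w hw
      have h3 := congrFun hγ ⟨w, hw⟩
      have h4 : γ.1 w = γ'.1 w := congrArg Subtype.val h3
      show γ'.1⁻¹ (γ.1 w) = w
      rw [h4]
      exact γ'.1.symm_apply_apply w
    have h5 := eq_one_of_fix (hΓ (γ'.1⁻¹ * γ.1) (Γ.mul_mem (Γ.inv_mem γ'.2) γ.2)) hxy hxz hyz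
      hx.1 hy.1 hz.1 (hfix x hx) (hfix y hy) (hfix z hz)
    exact Subtype.ext (inv_mul_eq_one.1 h5).symm
  haveI : Finite Γ := Finite.of_injective Φ hinj
  have horb : {z : Disc | ∃ γ ∈ Γ, z = γ centre}.Finite := by
    have h6 : {z : Disc | ∃ γ ∈ Γ, z = γ centre} = Set.range fun γ : Γ => γ.1 centre := by
      ext z
      constructor
      · rintro ⟨γ, hγ, rfl⟩
        exact ⟨⟨γ, hγ⟩, rfl⟩
      · rintro ⟨γ, rfl⟩
        exact ⟨γ.1, γ.2, rfl⟩
    rw [h6]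
    exact Set.finite_range _
  have h7 := hx.2
  rw [horb.isClosed.closure_eq] at h7
  obtain ⟨γ, hγ, rfl⟩ := h7
  have h8 := (norm_lt_iff hΓ hγ centre).2 norm_centre
  exact absurd hx.1 h8.ne

lemma formA_zero (u a : ℂ) : formA u a 0 = -(u * a) := by
  unfold formA
  simp

lemma formB_zero (u a : ℂ) : formB u a 0 = -(u * a) := by
  unfold formB
  simp

/-- a discrete group of isometries acts properly discontinuously -/
theorem finite_of_discrete (hΓ : ∀ γ ∈ Γ, IsHypIsometry γ) (hd : IsDiscrete Γ) {r : ℝ}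
    (hr : r < 1) : {γ : Disc ≃ₜ Disc | γ ∈ Γ ∧ ‖(γ centre : ℂ)‖ ≤ r}.Finite := by
  obtain ⟨ε, hε, hd⟩ := hd
  let K : Set (ℂ × ℂ) := sphere (0 : ℂ) 1 ×ˢ closedBall (0 : ℂ) r
  have hK : IsCompact K := (isCompact_sphere 0 1).prod (isCompact_closedBall 0 r)
  haveI : CompactSpace K := isCompact_iff_compactSpace.1 hK
  have hK1 : ∀ q : K, ‖q.1.1‖ = 1 := by
    intro q
    have := q.2.1
    rwa [mem_sphere, dist_zero_right] at this
  have hK2 : ∀ q : K, ‖q.1.2‖ < 1 := by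
    intro q
    have := q.2.2
    rw [mem_closedBall, dist_zero_right] at this
    linarith
  have cA : Continuous fun q : K × Disc => formA q.1.1.1 q.1.1.2 q.2 := by
    unfold formA
    refine Continuous.div (by fun_prop) (by fun_prop) fun q => den_ne (hK2 q.1) (disc_le q.2)
  have cB : Continuous fun q : K × Disc => formB q.1.1.1 q.1.1.2 q.2 := by
    unfold formB
    refine Continuous.div (by fun_prop) (by fun_prop) fun q => den_ne (hK2 q.1) ?_
    rw [RCLike.norm_conj]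
    exact disc_le q.2
  let A : C(K, C(Disc, ℂ)) := ContinuousMap.curry ⟨_, cA⟩
  let B : C(K, C(Disc, ℂ)) := ContinuousMap.curry ⟨_, cB⟩
  have hT : IsCompact (Set.range A ∪ Set.range B) :=
    (isCompact_range A.continuous).union (isCompact_range B.continuous)
  obtain ⟨t, ht, hcov⟩ := Metric.totallyBounded_iff.1 hT.totallyBounded (ε / 2) (by linarith)
  let toC : (Disc ≃ₜ Disc) → C(Disc, ℂ) := fun γ => ⟨fun z => (γ z : ℂ), by fun_prop⟩
  have hmem : ∀ γ : Disc ≃ₜ Disc, γ ∈ Γ → ‖(γ centre : ℂ)‖ ≤ r →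
      toC γ ∈ Set.range A ∪ Set.range B := by
    intro γ hγ hγr
    obtain ⟨u, a, hu, ha, hf⟩ := exists_form (hΓ γ hγ)
    have hca : (centre : ℂ) = 0 := rfl
    have har : ‖a‖ ≤ r := by
      rcases hf with hf | hf
      · rw [hf centre, hca, formA_zero, norm_neg, norm_mul, hu, one_mul] at hγr
        exact hγr
      · rw [hf centre, hca, formB_zero, norm_neg, norm_mul, hu, one_mul] at hγr
        exact hγr
    have hq : (u, a) ∈ K := ⟨by rw [mem_sphere, dist_zero_right]; exact hu,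
      by rw [mem_closedBall, dist_zero_right]; exact har⟩
    rcases hf with hf | hf
    · left
      refine ⟨⟨(u, a), hq⟩, ?_⟩
      ext z
      exact (hf z).symm
    · right
      refine ⟨⟨(u, a), hq⟩, ?_⟩
      ext z
      exact (hf z).symm
  have hch : ∀ γ : Disc ≃ₜ Disc, γ ∈ Γ → ‖(γ centre : ℂ)‖ ≤ r →
      ∃ y ∈ t, dist (toC γ) y < ε / 2 := by
    intro γ hγ hγr
    have h1 := hcov (hmem γ hγ hγr)
    rw [Set.mem_iUnion₂] at h1
    obtain ⟨y, hy, hy2⟩ := h1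
    exact ⟨y, hy, hy2⟩
  by_contra hinf
  have hinf' : {γ : Disc ≃ₜ Disc | γ ∈ Γ ∧ ‖(γ centre : ℂ)‖ ≤ r}.Infinite := hinf
  classical
  let F : (Disc ≃ₜ Disc) → C(Disc, ℂ) := fun γ =>
    if h : γ ∈ Γ ∧ ‖(γ centre : ℂ)‖ ≤ r then (hch γ h.1 h.2).choose else toC γ
  have hF : ∀ γ : Disc ≃ₜ Disc, γ ∈ Γ → ‖(γ centre : ℂ)‖ ≤ r →
      F γ ∈ t ∧ dist (toC γ) (F γ) < ε / 2 := by
    intro γ h1 h2
    have h3 : F γ = (hch γ h1 h2).choose := dif_pos ⟨h1, h2⟩
    rw [h3]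
    exact (hch γ h1 h2).choose_spec
  obtain ⟨γ, hγ, γ', hγ', hne, heq⟩ := hinf'.exists_ne_map_eq_of_mapsTo (f := F)
    (fun γ hγ => (hF γ hγ.1 hγ.2).1) ht
  apply hne
  have hdist : dist (toC γ) (toC γ') < ε := by
    have h1 := (hF γ hγ.1 hγ.2).2
    have h2 := (hF γ' hγ'.1 hγ'.2).2
    rw [← heq, dist_comm] at h2
    have := dist_triangle (toC γ) (F γ) (toC γ')
    linarith
  have h3 : γ * γ'⁻¹ = 1 := by
    apply hd _ (Γ.mul_mem hγ.1 (Γ.inv_mem hγ'.1))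
    intro z
    have h4 : (γ * γ'⁻¹) z = γ (γ'⁻¹ z) := rfl
    have h5 : γ' (γ'⁻¹ z) = z := γ'.apply_symm_apply z
    have h6 : dist (toC γ (γ'⁻¹ z)) (toC γ' (γ'⁻¹ z)) ≤ dist (toC γ) (toC γ') :=
      ContinuousMap.dist_apply_le_dist _
    have h7 : dist (γ (γ'⁻¹ z)) (γ' (γ'⁻¹ z)) < ε := lt_of_le_of_lt h6 hdist
    rw [h4]
    rwa [h5] at h7
  exact mul_inv_eq_one.1 h3

end Pool.Agent.MP644907ins
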