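import Mathlib
import Pool.Agent.Lib_MP_644907_ins.Grp
import Pool.Agent.Lib_MP_644907_ins.Dim
import Pool.Agent.Lib_MP_644907_full.Final

/-!
# Dimension drop for subgroups of the isometry group
-/

set_option autoImplicit false

open MeasureTheory Metric Filter Topology
open scoped ENNReal NNReal

namespace Pool.Agent.MP644907ins

variable {Γ : Subgroup (Disc ≃ₜ Disc)}

lemma measurable_formA (u a : ℂ) :
    Measurable fun z : ℂ => u * (z - a) / (1 - starRingEnd ℂ a * z) := by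
  have h : Measurable fun z : ℂ => starRingEnd ℂ z := Complex.continuous_conj.measurable
  fun_prop

lemma measurable_formB (u a : ℂ) : Measurable fun z : ℂ =>
    u * (starRingEnd ℂ z - a) / (1 - starRingEnd ℂ a * starRingEnd ℂ z) :=
  (measurable_formA u a).comp Complex.continuous_conj.measurable

theorem drop (hΓ : ∀ γ ∈ Γ, IsHypIsometry γ) (hdisc : IsDiscrete Γ)
    (hne : 2 < (limitSet Γ).encard) (μ : PMF (Disc ≃ₜ Disc)) (hfin : μ.support.Finite)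
    (hgen : (Subsemigroup.closure μ.support : Set (Disc ≃ₜ Disc)) = Γ)
    (ν : Measure Disc) [IsProbabilityMeasure ν] (hcirc : ν {ξ | ‖(ξ : ℂ)‖ = 1} = 1)
    (hstat : ∀ A, MeasurableSet A → ν A = ∑' γ, μ γ * ν (γ ⁻¹' A)) :
    ∃ E : Set Disc, MeasurableSet E ∧ ν Eᶜ = 0 ∧ dimH E < dimH (limitSet Γ) := by
  classical
  -- enumeration of the support
  set s : Finset (Disc ≃ₜ Disc) := hfin.toFinset with hs
  have hms : ∀ γ, γ ∈ s ↔ γ ∈ μ.support := fun γ => by rw [hs, Set.Finite.mem_toFinset]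
  obtain ⟨n, hn⟩ : ∃ n, n = s.card := ⟨_, rfl⟩
  let e : Fin n ≃ s := (finCongr hn).trans s.equivFin.symm
  let c : Fin n → (Disc ≃ₜ Disc) := fun i => (e i).1
  have hcs : ∀ i, c i ∈ μ.support := fun i => (hms _).1 (e i).2
  have hcΓ : ∀ i, c i ∈ Γ := by
    intro i
    have h1 : c i ∈ (Subsemigroup.closure μ.support : Set (Disc ≃ₜ Disc)) :=
      Subsemigroup.subset_closure (hcs i)
    rw [hgen] at h1
    exact h1
  have hsum : ∀ F : (Disc ≃ₜ Disc) → ℝ≥0∞, ∑' γ, μ γ * F γ = ∑ i, μ (c i) * F (c i) := by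
    intro F
    rw [tsum_eq_sum (s := s)]
    · rw [← Finset.sum_coe_sort s]
      exact (Equiv.sum_comp e fun x : s => μ x.1 * F x.1).symm
    · intro γ hγ
      have h1 : γ ∉ μ.support := fun h => hγ ((hms γ).2 h)
      rw [PMF.mem_support_iff, not_not] at h1
      rw [h1, zero_mul]
  let p : Fin n → ℝ := fun i => (μ (c i)).toReal
  have htop : ∀ i, μ (c i) ≠ ⊤ := fun i => μ.apply_ne_top _
  have hp : ∀ i, 0 < p i := by
    intro i
    exact ENNReal.toReal_pos ((PMF.mem_support_iff _ _).1 (hcs i)) (htop i)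
  have hp1 : ∑ i, p i = 1 := by
    have h1 := hsum fun _ => 1
    simp only [mul_one] at h1
    rw [μ.tsum_coe] at h1
    rw [← ENNReal.toReal_sum fun i _ => htop i, ← h1, ENNReal.toReal_one]
  -- the maps
  have hex : ∀ i, ∃ f : ℂ → ℂ, (∃ u a : ℂ, ‖u‖ = 1 ∧ ‖a‖ < 1 ∧
      (f = (fun z : ℂ => u * (z - a) / (1 - starRingEnd ℂ a * z)) ∨
       f = (fun z : ℂ => u * (starRingEnd ℂ z - a) / (1 - starRingEnd ℂ a * starRingEnd ℂ z)))) ∧
      ∀ z : Disc, f z = c i z := by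
    intro i
    obtain ⟨u, a, hu, ha, hf⟩ := exists_form (hΓ (c i) (hcΓ i))
    rcases hf with hf | hf
    · exact ⟨_, ⟨u, a, hu, ha, Or.inl rfl⟩, fun z => (hf z).symm⟩
    · exact ⟨_, ⟨u, a, hu, ha, Or.inr rfl⟩, fun z => (hf z).symm⟩
  choose g hg hgc using hex
  have hgm : ∀ i, Measurable (g i) := by
    intro i
    obtain ⟨u, a, -, -, h | h⟩ := hg i
    · rw [h]; exact measurable_formA u a
    · rw [h]; exact measurable_formB u a
  obtain ⟨S, hS⟩ : ∃ S : Set (ℂ → ℂ),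
    S = ⋂₀ {T : Set (ℂ → ℂ) | Set.range g ⊆ T ∧ ∀ f ∈ T, ∀ h ∈ T, f ∘ h ∈ T} := ⟨_, rfl⟩
  have hgS : ∀ i, g i ∈ S := by
    intro i
    rw [hS]
    rintro T ⟨hT, -⟩
    exact hT ⟨i, rfl⟩
  have hcomp : ∀ f ∈ S, ∀ h ∈ S, f ∘ h ∈ S := by
    intro f hf h hh
    rw [hS] at hf hh ⊢
    intro T hT
    exact hT.2 f (hf T hT) h (hh T hT)
  have hSΓ : ∀ f ∈ S, ∃ γ ∈ Γ, ∀ z : Disc, f z = γ z := by
    intro f hf
    rw [hS] at hf
    refine hf {f | ∃ γ ∈ Γ, ∀ z : Disc, f z = γ z} ⟨?_, ?_⟩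
    · rintro _ ⟨i, rfl⟩
      exact ⟨c i, hcΓ i, hgc i⟩
    · rintro f ⟨γ, hγ, hf⟩ h ⟨γ', hγ', hh⟩
      refine ⟨γ * γ', Γ.mul_mem hγ hγ', fun z => ?_⟩
      show f (h z) = _
      rw [hh z, hf (γ' z)]
      rfl
  have hΓS : ∀ γ ∈ Γ, ∃ f ∈ S, ∀ z : Disc, f z = γ z := by
    intro γ hγ
    have h1 : γ ∈ (Subsemigroup.closure μ.support : Set (Disc ≃ₜ Disc)) := by
      rw [hgen]
      exact hγ
    have h2 : γ ∈ Subsemigroup.closure μ.support := h1
    induction h2 using Subsemigroup.closure_induction with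
    | mem x hx =>
      have h3 : x ∈ s := (hms x).2 hx
      have h4 : c (e.symm ⟨x, h3⟩) = x := by
        show (e (e.symm ⟨x, h3⟩)).1 = x
        rw [Equiv.apply_symm_apply]
      refine ⟨g (e.symm ⟨x, h3⟩), hgS _, fun z => ?_⟩
      rw [hgc, h4]
    | mul x y hx hy ihx ihy =>
      have hx' : x ∈ (Subsemigroup.closure μ.support : Set (Disc ≃ₜ Disc)) := hx
      have hy' : y ∈ (Subsemigroup.closure μ.support : Set (Disc ≃ₜ Disc)) := hy
      have hxΓ : x ∈ (Γ : Set (Disc ≃ₜ Disc)) := by rwa [← hgen]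
      have hyΓ : y ∈ (Γ : Set (Disc ≃ₜ Disc)) := by rwa [← hgen]
      obtain ⟨f, hf, hfx⟩ := ihx hxΓ hx'
      obtain ⟨h, hh, hhy⟩ := ihy hyΓ hy'
      refine ⟨f ∘ h, hcomp f hf h hh, fun z => ?_⟩
      show f (h z) = _
      rw [hhy z, hfx (y z)]
      rfl
  have hinv : ∀ f ∈ S, ∃ h ∈ S, ∀ z : ℂ, ‖z‖ ≤ 1 → h (f z) = z := by
    intro f hf
    obtain ⟨γ, hγ, hfγ⟩ := hSΓ f hf
    obtain ⟨h, hh, hhγ⟩ := hΓS γ⁻¹ (Γ.inv_mem hγ)
    refine ⟨h, hh, fun z hz => ?_⟩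
    obtain ⟨w, hw⟩ : ∃ w : Disc, (w : ℂ) = z := ⟨⟨z, by rwa [mem_closedBall, dist_zero_right]⟩, rfl⟩
    rw [← hw, hfγ w, hhγ (γ w)]
    congr 1
    exact γ.symm_apply_apply w
  have hdisc' : ∀ r : ℝ, r < 1 →
      ((fun f : ℂ → ℂ => (Metric.closedBall (0:ℂ) 1).restrict f) ''
        {f : ℂ → ℂ | f ∈ S ∧ ‖f 0‖ ≤ r}).Finite := by
    intro r hr
    refine ((finite_of_discrete hΓ hdisc hr).image fun γ => fun z : Disc => (γ z : ℂ)).subset ?_
    rintro _ ⟨f, ⟨hf, hfr⟩, rfl⟩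
    obtain ⟨γ, hγ, hfγ⟩ := hSΓ f hf
    refine ⟨γ, ⟨hγ, ?_⟩, ?_⟩
    · rw [← hfγ centre]
      exact hfr
    · funext z
      exact (hfγ z).symm
  have hlim : closure ((fun f : ℂ → ℂ => f 0) '' S) ∩ Metric.sphere (0:ℂ) 1 =
      Subtype.val '' limitSet Γ := by
    have h1 : (fun f : ℂ → ℂ => f 0) '' S =
        Subtype.val '' {z : Disc | ∃ γ ∈ Γ, z = γ centre} := by
      ext x
      constructor
      · rintro ⟨f, hf, rfl⟩
        obtain ⟨γ, hγ, hfγ⟩ := hSΓ f hf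
        exact ⟨γ centre, ⟨γ, hγ, rfl⟩, (hfγ centre).symm⟩
      · rintro ⟨_, ⟨γ, hγ, rfl⟩, rfl⟩
        obtain ⟨f, hf, hfγ⟩ := hΓS γ hγ
        exact ⟨f, hf, hfγ centre⟩
    have hce : IsClosedEmbedding (Subtype.val : Disc → ℂ) :=
      (isClosed_closedBall (x := (0 : ℂ)) (ε := 1)).isClosedEmbedding_subtypeVal
    rw [h1, hce.closure_image_eq]
    ext x
    constructor
    · rintro ⟨⟨ξ, hξ, rfl⟩, hx⟩
      rw [mem_sphere, dist_zero_right] at hx
      exact ⟨ξ, ⟨hx, hξ⟩, rfl⟩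
    · rintro ⟨ξ, ⟨h2, h3⟩, rfl⟩
      refine ⟨⟨ξ, h3, rfl⟩, ?_⟩
      rw [mem_sphere, dist_zero_right]
      exact h2
  have hdim : dimH (Subtype.val '' limitSet Γ : Set ℂ) = dimH (limitSet Γ) :=
    isometry_subtype_coe.dimH_image _
  have hinf : (closure ((fun f : ℂ → ℂ => f 0) '' S) ∩ Metric.sphere (0:ℂ) 1).Infinite := by
    rw [hlim]
    exact (infinite_limit hΓ hne).image Subtype.val_injective.injOn
  -- the measure
  set ν' : Measure ℂ := ν.map Subtype.val with hν'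
  have hvm : Measurable (Subtype.val : Disc → ℂ) := measurable_subtype_coe
  have hprob : IsProbabilityMeasure ν' := Measure.isProbabilityMeasure_map hvm.aemeasurable
  have hsph : ν' (Metric.sphere (0:ℂ) 1)ᶜ = 0 := by
    rw [hν', Measure.map_apply hvm isClosed_sphere.measurableSet.compl]
    have h1 : MeasurableSet {ξ : Disc | ‖(ξ : ℂ)‖ = 1} :=
      (isClosed_eq (by fun_prop) continuous_const).measurableSet
    have h2 : Subtype.val ⁻¹' (Metric.sphere (0:ℂ) 1)ᶜ = {ξ : Disc | ‖(ξ : ℂ)‖ = 1}ᶜ := by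
      ext ξ
      simp
    rw [h2]
    exact (prob_compl_eq_zero_iff h1).2 hcirc
  have hst : ∀ A : Set ℂ, MeasurableSet A →
      ν' A = ∑ i, ENNReal.ofReal (p i) * ν' (g i ⁻¹' A) := by
    intro A hA
    rw [hν', Measure.map_apply hvm hA, hstat _ (hvm hA), hsum]
    refine Finset.sum_congr rfl fun i _ => ?_
    rw [Measure.map_apply hvm (hgm i hA)]
    have h1 : ENNReal.ofReal (p i) = μ (c i) := ENNReal.ofReal_toReal (htop i)
    rw [h1]
    congr 2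
    ext z
    show (c i z : ℂ) ∈ A ↔ g i z ∈ A
    rw [hgc i z]
  obtain ⟨E, hE1, hE2, hE3⟩ := Pool.Agent.DD.main n p g hp hp1 hg S hS hinv hdisc' hinf ν' hprob
    hsph hst
  refine ⟨Subtype.val ⁻¹' E, hvm hE1, ?_, ?_⟩
  · rw [hν', Measure.map_apply hvm hE1.compl] at hE2
    exact hE2
  · rw [hlim, hdim] at hE3
    refine lt_of_le_of_lt ?_ hE3
    rw [← isometry_subtype_coe.dimH_image (Subtype.val ⁻¹' E : Set Disc)]
    exact dimH_mono (Set.image_preimage_subset _ _)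

end Pool.Agent.MP644907ins
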